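import Pool.Agent.H97.PR.Targets

/-!
# Module TRL of the board pry_modules (MP_c62aed_lc): from lines to sets of points
-/

set_option autoImplicit false

namespace Pool.Agent.H13.PR

open Finset
open Pool.Agent.H97 Pool.Agent.H97.PR

theorem zmod2_aff : ∀ u v w b : ZMod 2, u ≠ b → v ≠ b → w ≠ b → u + v + w ≠ b := by decide

theorem isAf_fs {n : ℕ} (L : Line n) : IsAf (fs L) := by
  intro x hx y hy z hz e he
  have h1 := hx e he
  have h2 := hy e he
  have h3 := hz e he
  have : ∑ i ∈ e.1, (x + y + z) i = ∑ i ∈ e.1, x i + ∑ i ∈ e.1, y i + ∑ i ∈ e.1, z i := by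
    simp only [Pi.add_apply, Finset.sum_add_distrib]
  rw [this]
  exact zmod2_aff _ _ _ _ h1 h2 h3

theorem fs_empty {n : ℕ} : fs (∅ : Line n) = Set.univ := by
  ext x
  simp [fs]

theorem zmod2_cases : ∀ u : ZMod 2, (if decide (u = 1) = true then (1 : ZMod 2) else 0) = u := by
  decide

theorem exists_tz {n : ℕ} (x : E n) : ∃ x' : Fin n → Bool, tz x' = x := by
  refine ⟨fun i => decide (x i = 1), ?_⟩
  funext i
  exact zmod2_cases (x i)

theorem holds_iff {n : ℕ} (e : Finset (Fin n) × Bool) (x : Fin n → Bool) :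
    Holds e x ↔ ∑ i ∈ e.1, tz x i = if e.2 = true then 1 else 0 := by
  have h1 : ∑ i ∈ e.1, tz x i = ((e.1.filter fun i => x i = true).card : ZMod 2) := by
    simp [tz, Finset.sum_boole]
  rw [h1]
  unfold Holds
  by_cases h : e.2 = true
  · simp only [h, iff_true, if_true]
    exact (ZMod.natCast_eq_one_iff_odd).symm
  · simp only [h, if_false, iff_false, Nat.not_odd_iff_even]
    simpa using (ZMod.natCast_eq_zero_iff_even).symm

theorem fails_iff {n : ℕ} (L : Line n) (x : Fin n → Bool) : Fails L x ↔ tz x ∈ fs L := by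
  constructor
  · intro h e he h1
    exact h e he ((holds_iff e x).2 h1)
  · intro h e he h1
    exact h e he ((holds_iff e x).1 h1)

theorem sub_of {n : ℕ} (L L' : Line n) (h : ∀ x, Fails L x → Fails L' x) : fs L ⊆ fs L' := by
  intro x hx
  obtain ⟨x', rfl⟩ := exists_tz x
  exact (fails_iff L' x').1 (h x' ((fails_iff L x').2 hx))

theorem sub_union_of {n : ℕ} (L L₁ L₂ : Line n)
    (h : ∀ x, Fails L x → Fails L₁ x ∨ Fails L₂ x) : fs L ⊆ fs L₁ ∪ fs L₂ := by
  intro x hx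
  obtain ⟨x', rfl⟩ := exists_tz x
  rcases h x' ((fails_iff L x').2 hx) with h1 | h1
  · exact Or.inl ((fails_iff L₁ x').1 h1)
  · exact Or.inr ((fails_iff L₂ x').1 h1)

theorem pf_TRL (hCMB : T_CMB) : T_TRL := by
  intro n N k m blk g F σ
  have hax : ∀ L : Line n, Axm (cmp F g) σ L → Lf F g σ (fs L) := by
    rintro L ⟨G, hG, hc, hx⟩
    have h1 := (hCMB n N k m blk g F).1
    choose f hf using h1
    classical
    refine ⟨G.attach.image fun C => f C.1 (hG C.2), ?_, ?_⟩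
    · refine (Finset.card_image_le).trans ?_
      rw [Finset.card_attach]
      exact hc
    · intro x hxL
      obtain ⟨x', rfl⟩ := exists_tz x
      obtain ⟨C, hC, hCx⟩ := hx x' ((fails_iff L x').2 hxL)
      refine ⟨f C (hG hC), ?_, hf C (hG hC) x' hCx⟩
      exact Finset.mem_image.2 ⟨⟨C, hC⟩, Finset.mem_attach _ _, rfl⟩
  refine ⟨isAf_fs, fs_empty, hax, ?_, ?_⟩
  · intro S r L h hR
    refine ⟨fun i _ => isAf_fs (L i), ?_⟩
    intro i hi
    rcases hR.step i hi with h1 | ⟨j, hj, hh, h1⟩ | ⟨j, l, hj, hl, hh, hh', h1⟩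
    · exact Or.inl (hax _ h1)
    · exact Or.inr (Or.inl ⟨j, hj, hh, sub_of _ _ h1⟩)
    · exact Or.inr (Or.inr ⟨j, l, hj, hl, hh, hh', sub_union_of _ _ _ h1⟩)
  · intro L s hT
    induction hT with
    | ax L h1 => exact TreeA.ax _ (hax L h1)
    | weak L L' s _ h1 ih => exact TreeA.weak _ _ s (isAf_fs L') ih (sub_of _ _ h1)
    | res L L₁ L₂ s₁ s₂ _ _ h1 ih₁ ih₂ =>
      exact TreeA.res _ _ _ s₁ s₂ (isAf_fs L₁) (isAf_fs L₂) ih₁ ih₂ (sub_union_of _ _ _ h1)

end Pool.Agent.H13.PR
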